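import Pool.Agent.Helper50.VD.St
import Pool.Agent.Helper50.VD.Basic

open MeasureTheory Set Filter Topology
open scoped ENNReal

noncomputable section

namespace VD.M_R1

/-- entropy inequality -/
theorem ent (v : ℝ) (h0 : 0 ≤ v) (h1 : v ≤ 1) :
    (1 + v) * Real.log (1 + v) + (1 - v) * Real.log (1 - v) ≤ 2 * Real.log (1 + v ^ 2) := by
  have hc : 0 < 1 + v ^ 2 := by positivity
  have key : ∀ x : ℝ, 0 < x → Real.log x ≤ Real.log (1 + v ^ 2) + (x / (1 + v ^ 2) - 1) := by
    intro x hx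
    have h := Real.log_le_sub_one_of_pos (div_pos hx hc)
    rw [Real.log_div hx.ne' hc.ne'] at h
    linarith
  have e1 : (1 + v) * Real.log (1 + v) ≤
      (1 + v) * (Real.log (1 + v ^ 2) + ((1 + v) / (1 + v ^ 2) - 1)) :=
    mul_le_mul_of_nonneg_left (key _ (by linarith)) (by linarith)
  have e2 : (1 - v) * Real.log (1 - v) ≤
      (1 - v) * (Real.log (1 + v ^ 2) + ((1 - v) / (1 + v ^ 2) - 1)) := by
    rcases eq_or_lt_of_le h1 with h | h
    · rw [h]; simp
    · exact mul_le_mul_of_nonneg_left (key _ (by linarith)) (by linarith)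
  have e3 : (1 + v) * (Real.log (1 + v ^ 2) + ((1 + v) / (1 + v ^ 2) - 1)) +
      (1 - v) * (Real.log (1 + v ^ 2) + ((1 - v) / (1 + v ^ 2) - 1)) =
      2 * Real.log (1 + v ^ 2) := by
    field_simp
    ring
  linarith

/-- scaled form -/
theorem ent' (T h : ℝ) (hT : 0 < T) (h0 : 0 ≤ h) (h1 : h ≤ T) :
    (T + h) * Real.log (T + h) + (T - h) * Real.log (T - h) - 2 * T * Real.log T ≤
      T * (2 * Real.log (1 + (h / T) ^ 2)) := by
  have e := ent (h / T) (by positivity) (by rw [div_le_one hT]; exact h1)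
  have e1 : (T + h) = T * (1 + h / T) := by field_simp
  have e2 : (T - h) = T * (1 - h / T) := by field_simp
  have l1 : Real.log (T * (1 + h / T)) = Real.log T + Real.log (1 + h / T) :=
    Real.log_mul hT.ne' (by positivity)
  have l2 : (1 - h / T) * Real.log (T * (1 - h / T)) =
      (1 - h / T) * (Real.log T + Real.log (1 - h / T)) := by
    rcases eq_or_ne (1 - h / T) 0 with h' | h'
    · rw [h']; simp
    · rw [Real.log_mul hT.ne' h']
  have l3 : (T + h) * Real.log (T + h) + (T - h) * Real.log (T - h) - 2 * T * Real.log T =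
      T * ((1 + h / T) * Real.log (1 + h / T) + (1 - h / T) * Real.log (1 - h / T)) := by
    rw [e1, e2, l1]
    have : T * (1 - h / T) * Real.log (T * (1 - h / T)) =
        T * ((1 - h / T) * (Real.log T + Real.log (1 - h / T))) := by
      rw [mul_assoc, l2]
    rw [this]
    ring
  rw [l3]
  exact mul_le_mul_of_nonneg_left e hT.le

/-- the lower bound of the integrand in a column -/
def ell (T x s : ℝ) : ℝ :=
  s / Real.pi * (1 / ((5 / 3 - x) ^ 2 + 1 + s ^ 2) + 1 / ((5 / 3 + x) ^ 2 + 1 + s ^ 2)) -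
    1 / (Real.pi * T) * (Real.log (T + s) - Real.log (T - s))

/-- its antiderivative -/
def Lam (T x s : ℝ) : ℝ :=
  1 / (2 * Real.pi) * (Real.log ((5 / 3 - x) ^ 2 + 1 + s ^ 2) +
    Real.log ((5 / 3 + x) ^ 2 + 1 + s ^ 2)) -
    1 / (Real.pi * T) * ((T + s) * Real.log (T + s) + (T - s) * Real.log (T - s))

theorem cont_Lam (T x : ℝ) : Continuous (Lam T x) := by
  unfold Lam
  have c1 : Continuous fun s : ℝ => Real.log ((5 / 3 - x) ^ 2 + 1 + s ^ 2) :=
    Continuous.log (by fun_prop) fun s => by positivity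
  have c2 : Continuous fun s : ℝ => Real.log ((5 / 3 + x) ^ 2 + 1 + s ^ 2) :=
    Continuous.log (by fun_prop) fun s => by positivity
  have c3 : Continuous fun s : ℝ => (T + s) * Real.log (T + s) :=
    Real.continuous_mul_log.comp (continuous_const.add continuous_id)
  have c4 : Continuous fun s : ℝ => (T - s) * Real.log (T - s) :=
    Real.continuous_mul_log.comp (continuous_const.sub continuous_id)
  exact (continuous_const.mul (c1.add c2)).sub (continuous_const.mul (c3.add c4))

theorem deriv_Lam (T x s : ℝ) (hT : 0 < T) (hs : 0 < s) (hsT : s < T) :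
    HasDerivAt (Lam T x) (ell T x s) s := by
  have hpi := Real.pi_pos
  have d1 : HasDerivAt (fun s : ℝ => Real.log ((5 / 3 - x) ^ 2 + 1 + s ^ 2))
      (2 * s / ((5 / 3 - x) ^ 2 + 1 + s ^ 2)) s := by
    have h : HasDerivAt (fun s : ℝ => (5 / 3 - x) ^ 2 + 1 + s ^ 2) (2 * s) s := by
      simpa using (hasDerivAt_pow 2 s).const_add ((5 / 3 - x) ^ 2 + 1)
    exact h.log (by positivity)
  have d2 : HasDerivAt (fun s : ℝ => Real.log ((5 / 3 + x) ^ 2 + 1 + s ^ 2))
      (2 * s / ((5 / 3 + x) ^ 2 + 1 + s ^ 2)) s := by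
    have h : HasDerivAt (fun s : ℝ => (5 / 3 + x) ^ 2 + 1 + s ^ 2) (2 * s) s := by
      simpa using (hasDerivAt_pow 2 s).const_add ((5 / 3 + x) ^ 2 + 1)
    exact h.log (by positivity)
  have d3 : HasDerivAt (fun s : ℝ => (T + s) * Real.log (T + s)) (Real.log (T + s) + 1) s := by
    have h : HasDerivAt (fun s : ℝ => T + s) 1 s := by simpa using (hasDerivAt_id s).const_add T
    have h2 := (Real.hasDerivAt_mul_log (x := T + s) (by positivity)).comp s h
    simpa [Function.comp_def] using h2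
  have d4 : HasDerivAt (fun s : ℝ => (T - s) * Real.log (T - s))
      (-(Real.log (T - s) + 1)) s := by
    have h : HasDerivAt (fun s : ℝ => T - s) (-1) s := by simpa using (hasDerivAt_id s).const_sub T
    have h2 := (Real.hasDerivAt_mul_log (x := T - s) (by linarith)).comp s h
    simpa [Function.comp_def] using h2
  have d := ((d1.add d2).const_mul (1 / (2 * Real.pi))).sub
    ((d3.add d4).const_mul (1 / (Real.pi * T)))
  refine d.congr_deriv ?_
  unfold ell
  have h1 : (5 / 3 - x) ^ 2 + 1 + s ^ 2 ≠ 0 := by positivity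
  have h2 : (5 / 3 + x) ^ 2 + 1 + s ^ 2 ≠ 0 := by positivity
  field_simp
  ring

theorem int_ell (T x h : ℝ) (hT : 0 < T) (h0 : 0 < h) (hh : h ≤ T) :
    IntervalIntegrable (ell T x) volume 0 h ∧ ∫ s in (0 : ℝ)..h, ell T x s = Lam T x h - Lam T x 0 := by
  have hpi := Real.pi_pos
  have hint : IntervalIntegrable (ell T x) volume 0 h := by
    unfold ell
    have i1 : IntervalIntegrable (fun s : ℝ => s / Real.pi *
        (1 / ((5 / 3 - x) ^ 2 + 1 + s ^ 2) + 1 / ((5 / 3 + x) ^ 2 + 1 + s ^ 2))) volume 0 h := by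
      apply Continuous.intervalIntegrable
      have c1 : Continuous fun s : ℝ => 1 / ((5 / 3 - x) ^ 2 + 1 + s ^ 2) :=
        Continuous.div continuous_const (by fun_prop) fun s => by positivity
      have c2 : Continuous fun s : ℝ => 1 / ((5 / 3 + x) ^ 2 + 1 + s ^ 2) :=
        Continuous.div continuous_const (by fun_prop) fun s => by positivity
      exact (continuous_id.div_const _).mul (c1.add c2)
    have i2 : IntervalIntegrable (fun s : ℝ => Real.log (T + s) - Real.log (T - s)) volume 0 h := by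
      apply IntervalIntegrable.sub
      · have := (intervalIntegral.intervalIntegrable_log' (a := T + 0) (b := T + h)).comp_add_left T
        simpa using this
      · have := (intervalIntegral.intervalIntegrable_log' (a := T - 0) (b := T - h)).comp_sub_left T
        simpa using this
    exact i1.sub (i2.const_mul _)
  refine ⟨hint, ?_⟩
  exact intervalIntegral.integral_eq_sub_of_hasDerivAt_of_le h0.le (cont_Lam T x).continuousOn
    (fun s hs => deriv_Lam T x s hT hs.1 (hs.2.trans_le hh)) hint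

theorem Lam_pos (T x h : ℝ) (hT : 0 < T) (hT2 : 34 / 3 < T ^ 2) (hx : |x| < 5 / 3) (h0 : 0 < h)
    (hh : h ≤ T) : 0 < Lam T x h - Lam T x 0 := by
  have hpi := Real.pi_pos
  set Am : ℝ := (5 / 3 - x) ^ 2 + 1 with hAm
  set Ap : ℝ := (5 / 3 + x) ^ 2 + 1 with hAp
  have pm : 0 < Am := by positivity
  have pp : 0 < Ap := by positivity
  have e := ent' T h hT h0.le hh
  have hx2 : x ^ 2 < 25 / 9 := by
    have := abs_lt.mp hx
    nlinarith [this.1, this.2]
  have hprod : Am * Ap ≤ (34 / 9) ^ 2 := by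
    rw [hAm, hAp]
    nlinarith [mul_nonneg (sq_nonneg x) (by linarith : (0 : ℝ) ≤ 32 / 9 - x ^ 2)]
  have hsum : Am + Ap = 2 * (34 / 9) + 2 * x ^ 2 := by rw [hAm, hAp]; ring
  -- product inequality
  have hlog : 2 * Real.log (1 + 9 * h ^ 2 / 34) ≤
      (Real.log (Am + h ^ 2) - Real.log Am) + (Real.log (Ap + h ^ 2) - Real.log Ap) := by
    rw [← Real.log_div (by positivity) pm.ne', ← Real.log_div (by positivity) pp.ne',
      ← Real.log_mul (by positivity) (by positivity)]
    have : 2 * Real.log (1 + 9 * h ^ 2 / 34) = Real.log ((1 + 9 * h ^ 2 / 34) ^ 2) := by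
      rw [Real.log_pow]; norm_num
    rw [this]
    apply Real.log_le_log (by positivity)
    rw [div_mul_div_comm, le_div_iff₀ (by positivity)]
    have h2 : 0 ≤ h ^ 2 := sq_nonneg h
    have k1 : (1 + 9 * h ^ 2 / 34) ^ 2 * (Am * Ap) =
        Am * Ap + (9 / 17 * (Am * Ap)) * h ^ 2 + (81 / 1156 * (Am * Ap)) * h ^ 4 := by ring
    have k2 : (Am + h ^ 2) * (Ap + h ^ 2) = Am * Ap + (Am + Ap) * h ^ 2 + h ^ 4 := by ring
    rw [k1, k2]
    have k3 : 9 / 17 * (Am * Ap) ≤ Am + Ap := by
      rw [hsum]; nlinarith [sq_nonneg x]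
    have k4 : 81 / 1156 * (Am * Ap) ≤ 1 := by nlinarith
    have h4 : 0 ≤ h ^ 4 := by positivity
    nlinarith [mul_le_mul_of_nonneg_right k3 h2, mul_le_mul_of_nonneg_right k4 h4]
  have hlog2 : 2 * Real.log (1 + (h / T) ^ 2) < Real.log (1 + 9 * h ^ 2 / 34) := by
    have : 2 * Real.log (1 + (h / T) ^ 2) = Real.log ((1 + (h / T) ^ 2) ^ 2) := by
      rw [Real.log_pow]; norm_num
    rw [this]
    apply Real.log_lt_log (by positivity)
    have hv : (h / T) ^ 2 ≤ 1 := by
      rw [div_pow, div_le_one (by positivity)]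
      exact pow_le_pow_left₀ h0.le hh 2
    have hv0 : 0 < (h / T) ^ 2 := by positivity
    have hv2 : 3 * (h / T) ^ 2 < 9 * h ^ 2 / 34 := by
      rw [div_pow]
      have : h ^ 2 / T ^ 2 < h ^ 2 / (34 / 3) :=
        div_lt_div_of_pos_left (by positivity) (by norm_num) hT2
      linarith
    nlinarith
  have hmain : 1 / T * ((T + h) * Real.log (T + h) + (T - h) * Real.log (T - h) -
      2 * T * Real.log T) < Real.log (1 + 9 * h ^ 2 / 34) := by
    refine lt_of_le_of_lt ?_ hlog2
    rw [one_div, inv_mul_le_iff₀ hT]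
    exact e
  have heq : Lam T x h - Lam T x 0 = 1 / Real.pi * (1 / 2 *
      ((Real.log (Am + h ^ 2) - Real.log Am) + (Real.log (Ap + h ^ 2) - Real.log Ap)) -
      1 / T * ((T + h) * Real.log (T + h) + (T - h) * Real.log (T - h) -
      2 * T * Real.log T)) := by
    unfold Lam
    rw [← hAm, ← hAp]
    have h00 : Am + (0 : ℝ) ^ 2 = Am := by ring
    have h01 : Ap + (0 : ℝ) ^ 2 = Ap := by ring
    rw [h00, h01, add_zero, sub_zero]
    field_simp
    ring
  rw [heq]
  apply mul_pos (by positivity)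
  linarith

/-- upper bound of the kernel at the top -/
theorem N_top (T x s : ℝ) (hs : 0 < s) (hsT : s < T) :
    N (0, T) (x, s) ≤ 1 / (2 * Real.pi * T) * (Real.log (T + s) - Real.log (T - s)) := by
  have hT : 0 < T := hs.trans hsT
  have hpi := Real.pi_pos
  have hd : 0 < T - s := by linarith
  simp only [N, G, hT.ne', if_false]
  have h1 : Real.log (((0 - x) ^ 2 + (T + s) ^ 2) / ((0 - x) ^ 2 + (T - s) ^ 2)) ≤
      2 * (Real.log (T + s) - Real.log (T - s)) := by
    have h2 : 2 * (Real.log (T + s) - Real.log (T - s)) =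
        Real.log ((T + s) ^ 2 / (T - s) ^ 2) := by
      rw [Real.log_div (by positivity) (by positivity), Real.log_pow, Real.log_pow]
      push_cast; ring
    rw [h2]
    apply Real.log_le_log (by positivity)
    rw [div_le_div_iff₀ (by positivity) (by positivity)]
    have h3 : (T - s) ^ 2 ≤ (T + s) ^ 2 := by nlinarith
    nlinarith [mul_le_mul_of_nonneg_left h3 (sq_nonneg (0 - x))]
  have h4 := div_le_div_of_nonneg_right h1 (by positivity : (0 : ℝ) ≤ 4 * Real.pi)
  have h5 := div_le_div_of_nonneg_right h4 hT.le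
  refine h5.trans (le_of_eq ?_)
  field_simp
  ring

/-- lower bound of the kernel at `(c, 1)` -/
theorem N_low (hK1 : StK1) (c x s : ℝ) (hs : 0 < s) (hne : (c, (1 : ℝ)) ≠ (x, s)) :
    s / Real.pi * (1 / ((c - x) ^ 2 + 1 + s ^ 2)) ≤ N (c, 1) (x, s) := by
  obtain ⟨-, -, -, -, h⟩ := hK1 (c, 1) (x, s) (by norm_num) hs hne
  refine le_trans ?_ h
  have hpi := Real.pi_pos
  simp only [one_pow]
  apply mul_le_mul_of_nonneg_left _ (by positivity)
  have : 0 ≤ (2 * 1 * s) ^ 2 / (3 * ((c - x) ^ 2 + 1 + s ^ 2) ^ 3) := by positivity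
  linarith

/-- integrand -/
def ff (T : ℝ) (y : ℝ × ℝ) : ℝ := N (5 / 3, 1) y + N (-(5 / 3), 1) y - 2 * N (0, T) y

/-- inner columns -/
theorem ff_in (hK1 : StK1) (T x s : ℝ) (hx : |x| < 5 / 3) (hs : 0 < s) (hsT : s < T) :
    ell T x s ≤ ff T (x, s) := by
  have hx' := abs_lt.mp hx
  have h1 := N_low hK1 (5 / 3) x s hs (by
    intro h; have := congrArg Prod.fst h; simp only at this; linarith)
  have h2 := N_low hK1 (-(5 / 3)) x s hs (by
    intro h; have := congrArg Prod.fst h; simp only at this; linarith)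
  have h3 := N_top T x s hs hsT
  have hT : 0 < T := hs.trans hsT
  have hpi := Real.pi_pos
  unfold ell ff
  have e : (-(5 / 3) - x) ^ 2 = (5 / 3 + x) ^ 2 := by ring
  rw [e] at h2
  have e2 : 1 / (Real.pi * T) * (Real.log (T + s) - Real.log (T - s)) =
      2 * (1 / (2 * Real.pi * T) * (Real.log (T + s) - Real.log (T - s))) := by
    field_simp
  rw [e2, mul_add]
  linarith

/-- outer columns -/
theorem ff_out (hK1 : StK1) (T x s : ℝ) (hT : 0 < T) (hT2 : 34 / 3 < T ^ 2) (hx : 5 / 3 < |x|)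
    (hs : 0 < s) (hs1 : s ≤ 1) : 0 ≤ ff T (x, s) := by
  have hT3 : 3.36 < T := by
    by_contra h
    push Not at h
    nlinarith
  have hne : ∀ c t : ℝ, |c| ≤ 5 / 3 → (c, t) ≠ (x, s) := by
    intro c t hc h
    have := congrArg Prod.fst h
    simp only at this
    rw [this] at hc
    linarith
  have h1 := N_low hK1 (5 / 3) x s hs (hne _ _ (by norm_num [abs_of_pos]))
  have h2 := N_low hK1 (-(5 / 3)) x s hs (hne _ _ (by norm_num [abs_of_pos]))
  obtain ⟨-, -, h3, -, -⟩ := hK1 (0, T) (x, s) hT.le hs (hne _ _ (by norm_num))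
  have hpi := Real.pi_pos
  simp only at h3
  have e : (-(5 / 3) - x) ^ 2 = (5 / 3 + x) ^ 2 := by ring
  rw [e] at h2
  unfold ff
  set a := (5 / 3 - x) ^ 2 + 1 + s ^ 2 with ha
  set b := (5 / 3 + x) ^ 2 + 1 + s ^ 2 with hb
  have pa : 0 < a := by positivity
  have pb : 0 < b := by positivity
  have hab : a + b = 2 * (x ^ 2 + 34 / 9 + s ^ 2) := by rw [ha, hb]; ring
  set d := (0 - x) ^ 2 + (T - s) ^ 2 with hd
  have hdd : x ^ 2 + 34 / 9 + s ^ 2 ≤ d := by
    rw [hd]; nlinarith
  have pq : 0 < x ^ 2 + 34 / 9 + s ^ 2 := by positivity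
  have pd : 0 < d := lt_of_lt_of_le pq hdd
  have conv : 2 / d ≤ 1 / a + 1 / b := by
    have k1 : 2 / d ≤ 2 / (x ^ 2 + 34 / 9 + s ^ 2) :=
      div_le_div_of_nonneg_left (by norm_num) pq hdd
    have k2 : 2 / (x ^ 2 + 34 / 9 + s ^ 2) = 4 / (a + b) := by
      rw [hab]; field_simp; norm_num
    have k3 : 4 / (a + b) ≤ 1 / a + 1 / b := by
      rw [div_add_div _ _ pa.ne' pb.ne', div_le_div_iff₀ (by positivity) (by positivity)]
      nlinarith [sq_nonneg (a - b)]
    linarith [k1, k3, k2.le]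
  have e3 : 2 * (s / (Real.pi * d)) = s / Real.pi * (2 / d) := by field_simp
  have k4 := mul_le_mul_of_nonneg_left conv (by positivity : (0 : ℝ) ≤ s / Real.pi)
  rw [mul_add] at k4
  linarith

/-- the scaled case, comparison of the two values -/
theorem cmp (hK0 : StK0) (hK1 : StK1) (hK2 : StK2) (hK5 : StK5) (A : Set (ℝ × ℝ)) (hA : DM A)
    (hin : ∀ t : ℝ, 0 < t → t < 1 → ((5 / 3 * t, t) : ℝ × ℝ) ∈ A)
    (hout : ∀ t : ℝ, 1 < t → ((5 / 3 * t, t) : ℝ × ℝ) ∉ A)
    (T : ℝ) (hT : 0 < T) (hT2 : 34 / 3 < T ^ 2) (hAT : ∀ z ∈ A, z.2 ≤ T) :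
    phi A (0, T) < phi A (5 / 3, 1) := by
  have hvol := hA.vol
  -- symmetry
  have hsym : phi A (-(5 / 3), 1) = phi A (5 / 3, 1) := by
    have h := (hK5.2.2 A 0 hA.meas hA.sub).1 (5 / 3, 1)
    have h2 : rfl' 0 ⁻¹' A = A := by
      ext z
      simp only [rfl', mem_preimage, mul_zero, zero_sub]
      constructor
      · intro hz
        have := hA.symm hz
        simpa using this
      · intro hz
        exact hA.symm hz
    rw [h2] at h
    rw [h]
    simp [rfl']
  have i1 := (hK2 A hA.meas hA.sub hvol (5 / 3, 1) (by norm_num)).1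
  have i2 := (hK2 A hA.meas hA.sub hvol (-(5 / 3), 1) (by norm_num)).1
  have i3 := (hK2 A hA.meas hA.sub hvol (0, T) hT.le).1
  have ifn : IntegrableOn (ff T) A := (i1.add i2).sub (i3.const_mul 2)
  have hval : ∫ y in A, ff T y = 2 * (phi A (5 / 3, 1) - phi A (0, T)) := by
    have : ∫ y in A, ff T y = phi A (5 / 3, 1) + phi A (-(5 / 3), 1) - 2 * phi A (0, T) := by
      unfold ff phi
      have e1 := integral_sub (i1.add i2) (i3.const_mul 2)
      simp only [Pi.add_apply] at e1
      rw [e1, integral_add i1 i2, integral_const_mul]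
    rw [this, hsym]; ring
  have hpos : 0 < ∫ y in A, ff T y := by
    rw [← integral_indicator hA.meas]
    have ifi : Integrable (A.indicator (ff T)) (volume : Measure (ℝ × ℝ)) :=
      ifn.integrable_indicator hA.meas
    rw [Measure.volume_eq_prod] at ifi ⊢
    rw [integral_prod _ ifi]
    have hae := ifi.prod_right_ae
    have hne : ∀ᵐ x : ℝ, x ≠ 5 / 3 ∧ x ≠ -(5 / 3) := by
      have h1 : ∀ᵐ x : ℝ, x ≠ 5 / 3 := by simp [ae_iff]
      have h2 : ∀ᵐ x : ℝ, x ≠ -(5 / 3) := by simp [ae_iff]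
      filter_upwards [h1, h2] with x a b using ⟨a, b⟩
    -- positivity for inner columns
    have hinner : ∀ᵐ x : ℝ, |x| < 5 / 3 → 0 < ∫ s, A.indicator (ff T) (x, s) := by
      filter_upwards [hae] with x hx hxa
      -- the slice
      set S : Set ℝ := {s | (x, s) ∈ A} with hS
      have hSm : MeasurableSet S := measurable_prodMk_left hA.meas
      obtain ⟨t0, ht0, ht01, hx0⟩ : ∃ t0 : ℝ, 0 < t0 ∧ t0 < 1 ∧ |x| ≤ 5 / 3 * t0 := by
        refine ⟨(|x| * (3 / 5) + 1) / 2, by positivity, by linarith, by linarith⟩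
      have ht0S : t0 ∈ S := hA.mono _ (hin t0 ht0 ht01) (x, t0) ht0
        (by simp only; rw [abs_of_pos (by positivity : (0 : ℝ) < 5 / 3 * t0)]; exact hx0) le_rfl
      have hbdd : BddAbove S := ⟨T, fun s hs => hAT _ hs⟩
      set h := sSup S with hh
      have ht0h : t0 ≤ h := le_csSup hbdd ht0S
      have h0 : 0 < h := lt_of_lt_of_le ht0 ht0h
      have hhT : h ≤ T := csSup_le ⟨t0, ht0S⟩ fun s hs => hAT _ hs
      have hsub : Ioo 0 h ⊆ S := by
        intro s hs
        obtain ⟨s', hs', hss'⟩ := exists_lt_of_lt_csSup ⟨t0, ht0S⟩ hs.2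
        exact hA.mono _ hs' (x, s) hs.1 le_rfl hss'.le
      have hsub2 : S ⊆ Ioc 0 h := fun s hs => ⟨hA.sub hs, le_csSup hbdd hs⟩
      have hSae : (S : Set ℝ) =ᵐ[volume] Ioo 0 h := by
        apply (Filter.EventuallyLE.antisymm _ _)
        · exact (LE.le.eventuallyLE hsub2).trans Ioo_ae_eq_Ioc.symm.le
        · exact LE.le.eventuallyLE hsub
      have hfun : (fun s => A.indicator (ff T) (x, s)) = S.indicator fun s => ff T (x, s) := by
        funext s
        rfl
      rw [hfun] at hx ⊢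
      rw [integral_indicator hSm, setIntegral_congr_set hSae]
      have hx2 : IntegrableOn (fun s => ff T (x, s)) (Ioo 0 h) := by
        have := (integrable_indicator_iff hSm).mp hx
        exact this.mono_set hsub
      obtain ⟨j1, j2⟩ := int_ell T x h hT h0 hhT
      have j3 : IntegrableOn (ell T x) (Ioo 0 h) :=
        ((intervalIntegrable_iff_integrableOn_Ioc_of_le h0.le).mp j1).mono_set Ioo_subset_Ioc_self
      have j4 : ∫ s in Ioo 0 h, ell T x s = Lam T x h - Lam T x 0 := by
        rw [← j2, intervalIntegral.integral_of_le h0.le, integral_Ioc_eq_integral_Ioo]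
      have j5 : ∫ s in Ioo 0 h, ell T x s ≤ ∫ s in Ioo 0 h, ff T (x, s) :=
        setIntegral_mono_on j3 hx2 measurableSet_Ioo fun s hs =>
          ff_in hK1 T x s hxa hs.1 (hs.2.trans_le hhT)
      have j6 := Lam_pos T x h hT hT2 hxa h0 hhT
      linarith
    have houter : ∀ᵐ x : ℝ, ¬ |x| < 5 / 3 → 0 ≤ ∫ s, A.indicator (ff T) (x, s) := by
      filter_upwards [hne] with x hx hxa
      have hx2 : 5 / 3 < |x| := by
        rcases lt_or_eq_of_le (not_lt.mp hxa) with h | h
        · exact h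
        · exfalso
          rcases eq_or_eq_neg_of_abs_eq h.symm with h | h
          · exact hx.1 h
          · exact hx.2 h
      apply integral_nonneg
      intro s
      by_cases hs : (x, s) ∈ A
      · show 0 ≤ A.indicator (ff T) (x, s)
        rw [indicator_of_mem hs]
        have hs0 : 0 < s := hA.sub hs
        refine ff_out hK1 T x s hT hT2 hx2 hs0 ?_
        by_contra hs1
        push Not at hs1
        have hm : 1 < min s (|x| * (3 / 5)) := lt_min hs1 (by linarith)
        refine hout _ hm (hA.mono _ hs _ (by simp only; linarith) ?_ (min_le_left _ _))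
        simp only
        rw [abs_of_pos (by linarith : 0 < 5 / 3 * min s (|x| * (3 / 5)))]
        have := min_le_right s (|x| * (3 / 5))
        linarith
      · show 0 ≤ A.indicator (ff T) (x, s)
        rw [indicator_of_notMem hs]
    have hnn : 0 ≤ᵐ[volume] fun x => ∫ s, A.indicator (ff T) (x, s) := by
      filter_upwards [hinner, houter] with x h1 h2
      by_cases h : |x| < 5 / 3
      · exact (h1 h).le
      · exact h2 h
    rw [integral_pos_iff_support_of_nonneg_ae hnn ifi.integral_prod_left]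
    have hsup : (Ioo (-(5 / 3)) (5 / 3) : Set ℝ) ≤ᵐ[volume]
        Function.support fun x => ∫ s, A.indicator (ff T) (x, s) := by
      filter_upwards [hinner] with x h1 h2
      have h3 : x ∈ Ioo (-(5 / 3 : ℝ)) (5 / 3) := h2
      exact (h1 (abs_lt.mpr h3)).ne'
    refine lt_of_lt_of_le ?_ (measure_mono_ae hsup)
    rw [Real.volume_Ioo]
    norm_num
  linarith

/-- the scaled case -/
theorem one (hK0 : StK0) (hK1 : StK1) (hK2 : StK2) (hK3 : StK3) (hK5 : StK5) (A : Set (ℝ × ℝ))
    (W : ℝ) (hS : Sol A W) (hin : ∀ t : ℝ, 0 < t → t < 1 → ((5 / 3 * t, t) : ℝ × ℝ) ∈ A)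
    (hout : ∀ t : ℝ, 1 < t → ((5 / 3 * t, t) : ℝ × ℝ) ∉ A) : ∀ z ∈ A, z.2 ^ 2 ≤ 34 / 3 := by
  intro z0 hz0
  by_contra hc
  push Not at hc
  have hA := hS.dm
  obtain ⟨R, hR⟩ := hA.bdd
  set H : Set ℝ := Prod.snd '' A with hH
  have hHb : BddAbove H := by
    refine ⟨R, ?_⟩
    rintro _ ⟨z, hz, rfl⟩
    exact (hR hz).2.2
  set T := sSup H with hTd
  have hz0T : z0.2 ≤ T := le_csSup hHb ⟨z0, hz0, rfl⟩
  have hz00 : 0 < z0.2 := hA.sub hz0
  have hT : 0 < T := lt_of_lt_of_le hz00 hz0T
  have hT2 : 34 / 3 < T ^ 2 := lt_of_lt_of_le hc (pow_le_pow_left₀ hz00.le hz0T 2)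
  have hAT : ∀ z ∈ A, z.2 ≤ T := fun z hz => le_csSup hHb ⟨z, hz, rfl⟩
  have hlt := cmp hK0 hK1 hK2 hK5 A hA hin hout T hT hT2 hAT
  have hcont := hK3 A hA.meas hA.sub hA.vol
  -- lower bound at the top
  have h1 : W ≤ phi A (0, T) := by
    have hc1 : Tendsto (fun t : ℝ => phi A (0, t)) (𝓝[<] T) (𝓝 (phi A (0, T))) := by
      have := (hcont (0, T) hT.le).tendsto
      refine this.comp (tendsto_nhdsWithin_iff.mpr ⟨?_, ?_⟩)
      · exact ((continuous_const.prodMk continuous_id).tendsto T).mono_left nhdsWithin_le_nhds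
      · filter_upwards [Ioo_mem_nhdsLT hT] with t ht using ht.1.le
    refine ge_of_tendsto hc1 ?_
    filter_upwards [Ioo_mem_nhdsLT hT] with t ht
    obtain ⟨_, ⟨z, hz, rfl⟩, hzt⟩ := exists_lt_of_lt_csSup (⟨z0.2, z0, hz0, rfl⟩ : H.Nonempty) ht.2
    have : ((0 : ℝ), t) ∈ A := hA.mono z hz (0, t) ht.1 (by simp) hzt.le
    exact ((hS.iff _ ht.1).mp this).le
  -- upper bound at the corner
  have h2 : phi A (5 / 3, 1) ≤ W := by
    have hc1 : Tendsto (fun t : ℝ => phi A (5 / 3 * t, t)) (𝓝[>] 1) (𝓝 (phi A (5 / 3, 1))) := by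
      have := (hcont (5 / 3, 1) (by norm_num : (0 : ℝ) ≤ 1)).tendsto
      refine this.comp (tendsto_nhdsWithin_iff.mpr ⟨?_, ?_⟩)
      · have h3 : Continuous fun t : ℝ => ((5 / 3 * t, t) : ℝ × ℝ) := by fun_prop
        have h4 := (h3.tendsto 1).mono_left (nhdsWithin_le_nhds (s := Ioi 1))
        simpa using h4
      · filter_upwards [self_mem_nhdsWithin] with t ht
        have : (1 : ℝ) < t := ht
        show (0 : ℝ) ≤ t
        linarith
    refine le_of_tendsto hc1 ?_
    filter_upwards [self_mem_nhdsWithin] with t ht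
    have ht1 : (1 : ℝ) < t := ht
    by_contra h
    push Not at h
    exact hout t ht1 ((hS.iff (5 / 3 * t, t) (by simp only; linarith)).mpr h)
  linarith

end VD.M_R1

namespace VD

/-- tall sets: comparison of two points column by column -/
theorem mR1 (hK0 : StK0) (hK1 : StK1) (hK2 : StK2) (hK3 : StK3) (hK5 : StK5) : StR1 := by
  intro A W hS τ hτ hin hout z hz
  have hA := hS.dm
  have hm : ∀ w : ℝ × ℝ, w ∈ dil (1 / τ) A ↔ (τ * w.1, τ * w.2) ∈ A := by
    intro w
    have e1 : w.1 / (1 / τ) = τ * w.1 := by field_simp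
    have e2 : w.2 / (1 / τ) = τ * w.2 := by field_simp
    simp only [dil, mem_ofPred_eq, e1, e2]
  have hpos : 0 < 1 / τ := by positivity
  have hphi := ((hK5.1 A (1 / τ) hA.meas hA.sub hpos).1)
  have hphi2 : ∀ w : ℝ × ℝ, phi (dil (1 / τ) A) w = 1 / τ * phi A (τ * w.1, τ * w.2) := by
    intro w
    rw [← hphi (τ * w.1, τ * w.2)]
    congr 1
    ext
    · simp only; field_simp
    · simp only; field_simp
  have hS' : Sol (dil (1 / τ) A) (W / τ) := by
    refine ⟨⟨?_, ?_, ?_, ?_⟩, ?_, ?_, ?_⟩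
    · have : dil (1 / τ) A = (fun w : ℝ × ℝ => (τ * w.1, τ * w.2)) ⁻¹' A := by
        ext w; rw [hm]; rfl
      rw [this]
      exact hA.meas.preimage (by fun_prop)
    · intro w hw
      have h1 : 0 < τ * w.2 := hA.sub ((hm w).mp hw)
      exact (pos_iff_pos_of_mul_pos h1).mp hτ
    · obtain ⟨R, hR⟩ := hA.bdd
      refine ⟨R / τ, fun w hw => ?_⟩
      obtain ⟨h1, h2, h3⟩ := hR ((hm w).mp hw)
      refine ⟨?_, ?_, ?_⟩
      · rw [le_div_iff₀ hτ]
        simp only [abs_mul, abs_of_pos hτ] at h1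
        linarith
      · exact (pos_iff_pos_of_mul_pos h2).mp hτ
      · rw [le_div_iff₀ hτ]
        simp only at h3
        linarith
    · intro w hw v hv h1 h2
      rw [hm] at hw ⊢
      refine hA.mono _ hw _ (by simp only; positivity) ?_ ?_
      · simp only [abs_mul, abs_of_pos hτ]
        exact mul_le_mul_of_nonneg_left h1 hτ.le
      · exact mul_le_mul_of_nonneg_left h2 hτ.le
    · obtain ⟨w, hw⟩ := hS.ne
      refine ⟨(w.1 / τ, w.2 / τ), ?_⟩
      rw [hm]
      have e1 : τ * (w.1 / τ) = w.1 := by field_simp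
      have e2 : τ * (w.2 / τ) = w.2 := by field_simp
      simp only [e1, e2]
      exact hw
    · exact div_pos hS.pos hτ
    · intro w hw
      rw [hm, hS.iff (τ * w.1, τ * w.2) (by simp only; positivity), hphi2, div_eq_inv_mul, one_div]
      exact (mul_lt_mul_iff_right₀ (inv_pos.mpr hτ)).symm
  have h := M_R1.one hK0 hK1 hK2 hK3 hK5 _ _ hS' (fun t h0 h1 => by
      rw [hm]
      have := hin (τ * t) (by positivity) (by nlinarith)
      have e : 5 / 3 * (τ * t) = τ * (5 / 3 * t) := by ring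
      rw [e] at this
      exact this) (fun t h1 => by
      rw [hm]
      have := hout (τ * t) (by nlinarith)
      have e : 5 / 3 * (τ * t) = τ * (5 / 3 * t) := by ring
      rw [e] at this
      exact this) (z.1 / τ, z.2 / τ) (by
      rw [hm]
      have e1 : τ * (z.1 / τ) = z.1 := by field_simp
      have e2 : τ * (z.2 / τ) = z.2 := by field_simp
      simp only [e1, e2]
      exact hz)
  simp only at h
  rw [div_pow, div_le_iff₀ (by positivity)] at h
  exact h

end VD
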